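import Pool.Agent.BetaK.Basic

/-!
# Cuts: a digraph with two regular tournaments of order `2 k + 1` at its ends
-/

set_option autoImplicit false

namespace Pool.Agent.BKF

open Pool.Agent.BetaK

variable {V : Type*} [Fintype V] [DecidableEq V]

/-- a cut that splits a regular tournament of order `2 k + 1` has at least `k` leaving arcs -/
theorem rot_cut {k : ℕ} {T : Finset (V × V)} {L : Finset V} (hL : L.card = 2 * k + 1)
    (hout : ∀ v ∈ L, k ≤ (T.filter fun a => a.1 = v ∧ a.2 ∈ L).card)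
    (hloop : ∀ v, (v, v) ∉ T) (hasym : ∀ u v, (u, v) ∈ T → (v, u) ∉ T)
    {Z : Finset V} (h1 : ∃ v ∈ L, v ∈ Z) (h2 : ∃ v ∈ L, v ∉ Z) :
    k ≤ (leaving T Z).card := by
  classical
  set M := L.filter (fun v => v ∈ Z) with hM
  have hm1 : 1 ≤ M.card := by
    obtain ⟨v, hv, hvZ⟩ := h1
    exact Finset.card_pos.2 ⟨v, Finset.mem_filter.2 ⟨hv, hvZ⟩⟩
  have hm2 : M.card ≤ 2 * k := by
    obtain ⟨v, hv, hvZ⟩ := h2
    have h : M.card < L.card := Finset.card_lt_card (Finset.filter_ssubset.2 ⟨v, hv, hvZ⟩)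
    omega
  set E := T.filter (fun a => a.1 ∈ M ∧ a.2 ∈ L) with hE
  set E1 := T.filter (fun a => a.1 ∈ M ∧ a.2 ∈ M) with hE1
  have hEk : k * M.card ≤ E.card := by
    have hE' : E = M.biUnion (fun v => T.filter fun a => a.1 = v ∧ a.2 ∈ L) := by
      ext a
      simp only [hE, Finset.mem_filter, Finset.mem_biUnion]
      constructor
      · rintro ⟨ha, h3, h4⟩
        exact ⟨a.1, h3, ha, rfl, h4⟩
      · rintro ⟨v, hv, ha, rfl, h4⟩
        exact ⟨ha, hv, h4⟩
    rw [hE', Finset.card_biUnion]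
    · calc k * M.card = ∑ _v ∈ M, k := by rw [Finset.sum_const, smul_eq_mul, mul_comm]
        _ ≤ _ := Finset.sum_le_sum fun v hv => hout v (Finset.mem_filter.1 hv).1
    · intro u _ v _ huv
      rw [Function.onFun, Finset.disjoint_left]
      intro a ha hb
      exact huv ((Finset.mem_filter.1 ha).2.1.symm.trans (Finset.mem_filter.1 hb).2.1)
  have hEE : E.card ≤ E1.card + (leaving T Z).card := by
    have hsub : E ⊆ E1 ∪ leaving T Z := by
      intro a ha
      obtain ⟨ha, h3, h4⟩ := Finset.mem_filter.1 ha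
      rw [Finset.mem_union]
      by_cases h5 : a.2 ∈ Z
      · exact Or.inl (Finset.mem_filter.2 ⟨ha, h3, Finset.mem_filter.2 ⟨h4, h5⟩⟩)
      · exact Or.inr (Finset.mem_filter.2 ⟨ha, (Finset.mem_filter.1 h3).2, h5⟩)
    exact (Finset.card_le_card hsub).trans (Finset.card_union_le _ _)
  have hE1c : 2 * E1.card + M.card ≤ M.card * M.card := by
    have hdis : Disjoint E1 (E1.image Prod.swap) := by
      rw [Finset.disjoint_left]
      rintro ⟨a, b⟩ ha hb
      obtain ⟨⟨c, d⟩, hcd, hs⟩ := Finset.mem_image.1 hb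
      simp only [Prod.swap_prod_mk, Prod.mk.injEq] at hs
      obtain ⟨rfl, rfl⟩ := hs
      exact hasym _ _ (Finset.mem_filter.1 ha).1 (Finset.mem_filter.1 hcd).1
    have hsub : E1 ∪ E1.image Prod.swap ⊆ M.offDiag := by
      rintro ⟨a, b⟩ hab
      rw [Finset.mem_offDiag]
      rw [Finset.mem_union] at hab
      rcases hab with hab | hab
      · obtain ⟨h3, h4, h5⟩ := Finset.mem_filter.1 hab
        refine ⟨h4, h5, ?_⟩
        intro he
        simp only at he
        exact hloop b (he ▸ h3)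
      · obtain ⟨⟨c, d⟩, hcd, hs⟩ := Finset.mem_image.1 hab
        simp only [Prod.swap_prod_mk, Prod.mk.injEq] at hs
        obtain ⟨rfl, rfl⟩ := hs
        obtain ⟨h3, h4, h5⟩ := Finset.mem_filter.1 hcd
        refine ⟨h5, h4, ?_⟩
        intro he
        simp only at he
        exact hloop c (he ▸ h3)
    have h3 := Finset.card_le_card hsub
    rw [Finset.card_union_of_disjoint hdis, Finset.card_image_of_injective _ Prod.swap_injective,
      Finset.offDiag_card] at h3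
    have h4 : M.card ≤ M.card * M.card := Nat.le_mul_of_pos_left _ hm1
    omega
  have h5 : M.card * M.card + 2 * k ≤ 2 * (k * M.card) + M.card := by
    obtain ⟨p, hp⟩ := Nat.exists_eq_add_of_le hm1
    obtain ⟨q, hq⟩ := Nat.exists_eq_add_of_le hm2
    rw [hp] at hq ⊢
    nlinarith [Nat.zero_le (p * q)]
  omega

/-- the backward flow: `k` arcs leave every set that contains `R` and avoids `L` -/
theorem back_cut {k : ℕ} {T : Finset (V × V)} {L R S1 S2 Z : Finset V} {p q : V}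
    (hpq : p ≠ q) (hqp : (q, p) ∈ T) (hpS1 : p ∉ S1) (hpS2 : p ∉ S2) (hqS1 : q ∉ S1)
    (hqS2 : q ∉ S2) (hqL : q ∉ L) (hS12 : Disjoint S1 S2) (hS2L : Disjoint S2 L)
    (hin2 : ∀ x ∈ S2, ∃ r ∈ R, (r, x) ∈ T) (hout2 : ∀ x ∈ S2, (x, p) ∈ T)
    (hin1 : ∀ x ∈ S1, (q, x) ∈ T) (hout1 : ∀ x ∈ S1, ∃ l ∈ L, (x, l) ∈ T)
    (hpL : S2.card + 1 ≤ (T.filter fun a => a.1 = p ∧ a.2 ∈ L).card)
    (hRq : S1.card + 1 ≤ (T.filter fun a => a.1 ∈ R ∧ a.2 = q).card)
    (hk : k ≤ S1.card + S2.card + 1) (hRZ : R ⊆ Z) (hLZ : Disjoint L Z) :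
    k ≤ (leaving T Z).card := by
  classical
  set W2 := (leaving T Z).filter
    (fun e => e.2 ∈ S2 ∨ (e.1 ∈ S2 ∧ e.2 = p) ∨ (e.1 = p ∧ e.2 ∈ L)) with hW2
  set W1 := (leaving T Z).filter
    (fun e => (e.1 ∈ R ∧ e.2 = q) ∨ (e.1 = q ∧ e.2 ∈ S1) ∨ (e.1 ∈ S1 ∧ e.2 ∈ L)) with hW1
  have hdis : Disjoint W1 W2 := by
    rw [Finset.disjoint_left]
    rintro ⟨x, y⟩ h1 h2
    have h3 := (Finset.mem_filter.1 h1).2
    have h4 := (Finset.mem_filter.1 h2).2
    simp only at h3 h4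
    have hd1 := Finset.disjoint_left.1 hS12
    have hd2 := Finset.disjoint_left.1 hS2L
    rcases h3 with ⟨_, rfl⟩ | ⟨rfl, h3⟩ | ⟨h3, h3'⟩ <;>
      rcases h4 with h4 | ⟨h4, h4'⟩ | ⟨h4, h4'⟩
    · exact hqS2 h4
    · exact hpq h4'.symm
    · exact hqL h4'
    · exact hd1 h3 h4
    · exact hqS2 h4
    · exact hpq h4.symm
    · exact hd2 h4 h3'
    · exact hd1 h3 h4
    · exact hpS1 (h4 ▸ h3)
  have hWsub : W1 ∪ W2 ⊆ leaving T Z :=
    Finset.union_subset (Finset.filter_subset _ _) (Finset.filter_subset _ _)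
  have hqp' : (q, p) ∉ W1 ∪ W2 := by
    intro h
    rw [Finset.mem_union] at h
    rcases h with h | h
    · have h3 := (Finset.mem_filter.1 h).2
      simp only at h3
      rcases h3 with ⟨_, h3⟩ | ⟨_, h3⟩ | ⟨h3, _⟩
      · exact hpq h3
      · exact hpS1 h3
      · exact hqS1 h3
    · have h3 := (Finset.mem_filter.1 h).2
      simp only at h3
      rcases h3 with h3 | ⟨h3, _⟩ | ⟨h3, _⟩
      · exact hpS2 h3
      · exact hqS2 h3
      · exact hpq h3.symm
  have hcard : (W1 ∪ W2).card = W1.card + W2.card := Finset.card_union_of_disjoint hdis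
  -- the part at `p`
  have hp1 : p ∈ Z → S2.card + 1 ≤ W2.card := by
    intro hp
    refine hpL.trans (Finset.card_le_card ?_)
    intro e he
    obtain ⟨h1, h2, h3⟩ := Finset.mem_filter.1 he
    refine Finset.mem_filter.2 ⟨Finset.mem_filter.2 ⟨h1, h2 ▸ hp, ?_⟩, Or.inr (Or.inr ⟨h2, h3⟩)⟩
    exact fun h => Finset.disjoint_left.1 hLZ h3 h
  have hp2 : p ∉ Z → S2.card ≤ W2.card := by
    intro hp
    choose! r hr1 hr2 using hin2
    refine Finset.card_le_card_of_injOn (fun x => if x ∈ Z then (x, p) else (r x, x)) ?_ ?_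
    · intro x hx
      have hx' : x ∈ S2 := hx
      by_cases h : x ∈ Z
      · simp only [h, if_true]
        exact Finset.mem_filter.2 ⟨Finset.mem_filter.2 ⟨hout2 x hx', h, hp⟩,
          Or.inr (Or.inl ⟨hx', rfl⟩)⟩
      · simp only [h, if_false]
        exact Finset.mem_filter.2 ⟨Finset.mem_filter.2 ⟨hr2 x hx', hRZ (hr1 x hx'), h⟩,
          Or.inl hx'⟩
    · intro x hx y hy hxy
      have hx' : x ∈ S2 := hx
      have hy' : y ∈ S2 := hy
      by_cases h : x ∈ Z <;> by_cases h' : y ∈ Z <;> simp only [h, h', if_true, if_false,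
        Prod.mk.injEq] at hxy
      · exact hxy.1
      · exact absurd (hxy.2 ▸ hy') hpS2
      · exact absurd (hxy.2 ▸ hx') hpS2
      · exact hxy.2
  have hq1 : q ∉ Z → S1.card + 1 ≤ W1.card := by
    intro hq
    refine hRq.trans (Finset.card_le_card ?_)
    intro e he
    obtain ⟨h1, h2, h3⟩ := Finset.mem_filter.1 he
    exact Finset.mem_filter.2 ⟨Finset.mem_filter.2 ⟨h1, hRZ h2, h3 ▸ hq⟩, Or.inl ⟨h2, h3⟩⟩
  have hq2 : q ∈ Z → S1.card ≤ W1.card := by
    intro hq
    choose! l hl1 hl2 using hout1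
    refine Finset.card_le_card_of_injOn (fun x => if x ∈ Z then (x, l x) else (q, x)) ?_ ?_
    · intro x hx
      have hx' : x ∈ S1 := hx
      by_cases h : x ∈ Z
      · simp only [h, if_true]
        exact Finset.mem_filter.2 ⟨Finset.mem_filter.2 ⟨hl2 x hx', h,
          fun h' => Finset.disjoint_left.1 hLZ (hl1 x hx') h'⟩, Or.inr (Or.inr ⟨hx', hl1 x hx'⟩)⟩
      · simp only [h, if_false]
        exact Finset.mem_filter.2 ⟨Finset.mem_filter.2 ⟨hin1 x hx', hq, h⟩,
          Or.inr (Or.inl ⟨rfl, hx'⟩)⟩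
    · intro x hx y hy hxy
      have hx' : x ∈ S1 := hx
      have hy' : y ∈ S1 := hy
      by_cases h : x ∈ Z <;> by_cases h' : y ∈ Z <;> simp only [h, h', if_true, if_false,
        Prod.mk.injEq] at hxy
      · exact hxy.1
      · exact absurd (hxy.1 ▸ hx') hqS1
      · exact absurd (hxy.1 ▸ hy') hqS1
      · exact hxy.2
  have hle := Finset.card_le_card hWsub
  by_cases hp : p ∈ Z
  · have h1 := hp1 hp
    by_cases hq : q ∈ Z
    · have h2 := hq2 hq
      omega
    · have h2 := hq1 hq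
      omega
  · have h1 := hp2 hp
    by_cases hq : q ∈ Z
    · have h2 := hq2 hq
      have h3 : insert (q, p) (W1 ∪ W2) ⊆ leaving T Z := by
        rw [Finset.insert_subset_iff]
        exact ⟨Finset.mem_filter.2 ⟨hqp, hq, hp⟩, hWsub⟩
      have h4 := Finset.card_le_card h3
      rw [Finset.card_insert_of_notMem hqp'] at h4
      omega
    · have h2 := hq1 hq
      omega

/-- two regular tournaments of order `2 k + 1` at the ends, every other vertex with `k` arcs from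
the first and `k` arcs to the second, and `k` backward arcs over each cut: `k`-arc-strong -/
theorem arcStrong_ends {k : ℕ} (hk : 1 ≤ k) {T : Finset (V × V)} {L R : Finset V}
    (hloop : ∀ v, (v, v) ∉ T) (hasym : ∀ u v, (u, v) ∈ T → (v, u) ∉ T)
    (hL : L.card = 2 * k + 1) (hLout : ∀ v ∈ L, k ≤ (T.filter fun a => a.1 = v ∧ a.2 ∈ L).card)
    (hR : R.card = 2 * k + 1) (hRout : ∀ v ∈ R, k ≤ (T.filter fun a => a.1 = v ∧ a.2 ∈ R).card)
    (hLR : ∀ u ∈ L, ∀ v ∈ R, (u, v) ∈ T)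
    (hwin : ∀ v, v ∉ L → v ∉ R → k ≤ (T.filter fun a => a.1 ∈ L ∧ a.2 = v).card)
    (hwout : ∀ v, v ∉ L → v ∉ R → k ≤ (T.filter fun a => a.1 = v ∧ a.2 ∈ R).card)
    (hback : ∀ Z : Finset V, R ⊆ Z → Disjoint L Z → k ≤ (leaving T Z).card) :
    ArcStrong k T := by
  classical
  refine arcStrong_of_cut hk fun Z h1 h2 => ?_
  by_cases hLZ : ∃ v ∈ L, v ∈ Z
  · by_cases hLZ' : ∃ v ∈ L, v ∉ Z
    · exact rot_cut hL hLout hloop hasym hLZ hLZ'
    push Not at hLZ'
    by_cases hRZ : ∃ v ∈ R, v ∉ Z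
    · by_cases hRZ' : ∃ v ∈ R, v ∈ Z
      · exact rot_cut hR hRout hloop hasym hRZ' hRZ
      obtain ⟨v, hv, hvZ⟩ := hRZ
      -- all arcs from `L` to `v`
      have h3 : L.image (fun u => (u, v)) ⊆ leaving T Z := by
        intro e he
        obtain ⟨u, hu, rfl⟩ := Finset.mem_image.1 he
        exact Finset.mem_filter.2 ⟨hLR u hu v hv, hLZ' u hu, hvZ⟩
      have h4 := Finset.card_le_card h3
      rw [Finset.card_image_of_injective _ (fun x y h => (Prod.mk.inj h).1), hL] at h4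
      omega
    push Not at hRZ
    obtain ⟨v, hv⟩ : ∃ v, v ∉ Z := by
      by_contra hcon
      push Not at hcon
      exact h2 (Finset.eq_univ_iff_forall.2 hcon)
    have hvL : v ∉ L := fun h => hv (hLZ' v h)
    have hvR : v ∉ R := fun h => hv (hRZ v h)
    refine (hwin v hvL hvR).trans (Finset.card_le_card ?_)
    intro e he
    obtain ⟨h3, h4, h5⟩ := Finset.mem_filter.1 he
    exact Finset.mem_filter.2 ⟨h3, hLZ' _ h4, h5 ▸ hv⟩
  push Not at hLZ
  by_cases hRZ : ∃ v ∈ R, v ∈ Z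
  · by_cases hRZ' : ∃ v ∈ R, v ∉ Z
    · exact rot_cut hR hRout hloop hasym hRZ hRZ'
    push Not at hRZ'
    exact hback Z hRZ' (Finset.disjoint_left.2 hLZ)
  push Not at hRZ
  obtain ⟨v, hv⟩ := h1
  have hvL : v ∉ L := fun h => hLZ v h hv
  have hvR : v ∉ R := fun h => hRZ v h hv
  refine (hwout v hvL hvR).trans (Finset.card_le_card ?_)
  intro e he
  obtain ⟨h3, h4, h5⟩ := Finset.mem_filter.1 he
  exact Finset.mem_filter.2 ⟨h3, h4 ▸ hv, hRZ _ h5⟩

end Pool.Agent.BKF
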