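import Pool.Agent.BKF.Out
import Pool.Agent.BKF.In

/-!
# Degrees of the subdigraph: summary
-/

set_option autoImplicit false

namespace Pool.Agent.BKF

open Pool.Agent.BetaK

/-- out-degrees on `Y`, `v`, `X`, `R` -/
theorem outA {k i : ℕ} (hk : 9 ≤ k) (h : 2 * k + 1 ≤ i) (hu : i ≠ 2 * k + 6)
    (h' : i < 5 * k + 5) : cnt (fun j => DD k i j) 0 (5 * k + 5) = k := by
  have hc : i = 2 * k + 1 ∨ i = 2 * k + 2 ∨ i = 2 * k + 3 ∨ i = 2 * k + 4 ∨ i = 2 * k + 5 ∨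
      i = 2 * k + 7 ∨ (2 * k + 8 ≤ i ∧ i ≤ 3 * k - 2) ∨ i = 3 * k - 1 ∨ i = 3 * k ∨
      i = 3 * k + 1 ∨ i = 3 * k + 2 ∨ i = 3 * k + 3 ∨ (3 * k + 4 ≤ i ∧ i ≤ 4 * k + 4) ∨
      (4 * k + 5 ≤ i ∧ i < 5 * k) ∨ (5 * k ≤ i ∧ i < 5 * k + 5) := by omega
  rcases hc with h | h | h | h | h | h | h | h | h | h | h | h | h | h | h
  · rw [h]; exact out_Y0 hk
  · rw [h]; exact out_Y1 hk
  · rw [h]; exact out_Y2 hk
  · rw [h]; exact out_Y3 hk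
  · rw [h]; exact out_Y4 hk
  · rw [h]; exact out_v hk
  · exact out_X hk h.1 h.2
  · rw [h]; exact out_X0 hk
  · rw [h]; exact out_X1 hk
  · rw [h]; exact out_X2 hk
  · rw [h]; exact out_X3 hk
  · rw [h]; exact out_X4 hk
  · exact out_R1 hk h.1 h.2
  · exact out_R2 hk h.1 h.2
  · exact out_R3 hk h.1 h.2

theorem out_ge {k i : ℕ} (hk : 9 ≤ k) (h' : i < 5 * k + 5) :
    k ≤ cnt (fun j => DD k i j) 0 (5 * k + 5) := by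
  have hc : (2 * k + 1 ≤ i ∧ i ≠ 2 * k + 6) ∨ i = 2 * k + 6 ∨ i < k + 1 ∨
      (k + 1 ≤ i ∧ i < 2 * k - 1) ∨ (2 * k - 1 ≤ i ∧ i ≤ 2 * k) := by omega
  rcases hc with h | h | h | h | h
  · exact (outA hk h.1 h.2 h').ge
  · rw [h]; exact out_u hk
  · exact out_L1 hk h
  · exact out_L2 hk h.1 h.2
  · exact out_L3 hk h.1 h.2

/-- in-degrees on `L`, `Y`, `u`, `X` -/
theorem inB {k i : ℕ} (hk : 9 ≤ k) (h : i ≤ 3 * k + 3) (hv : i ≠ 2 * k + 7) :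
    cnt (fun j => DD k j i) 0 (5 * k + 5) = k := by
  have hc : i ≤ 3 ∨ (4 ≤ i ∧ i < k) ∨ (k ≤ i ∧ i ≤ 2 * k) ∨ i = 2 * k + 1 ∨ i = 2 * k + 2 ∨
      i = 2 * k + 3 ∨ i = 2 * k + 4 ∨ i = 2 * k + 5 ∨ i = 2 * k + 6 ∨
      (2 * k + 8 ≤ i ∧ i ≤ 3 * k - 2) ∨ i = 3 * k - 1 ∨ i = 3 * k ∨
      i = 3 * k + 1 ∨ i = 3 * k + 2 ∨ i = 3 * k + 3 := by omega
  rcases hc with h | h | h | h | h | h | h | h | h | h | h | h | h | h | h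
  · exact in_L1 hk h
  · exact in_L2 hk h.1 h.2
  · exact in_L3 hk h.1 h.2
  · rw [h]; exact in_Y0 hk
  · rw [h]; exact in_Y1 hk
  · rw [h]; exact in_Y2 hk
  · rw [h]; exact in_Y3 hk
  · rw [h]; exact in_Y4 hk
  · rw [h]; exact in_u hk
  · exact in_X hk h.1 h.2
  · rw [h]; exact in_X0 hk
  · rw [h]; exact in_X1 hk
  · rw [h]; exact in_X2 hk
  · rw [h]; exact in_X3 hk
  · rw [h]; exact in_X4 hk

theorem in_ge {k i : ℕ} (hk : 9 ≤ k) (h' : i < 5 * k + 5) :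
    k ≤ cnt (fun j => DD k j i) 0 (5 * k + 5) := by
  have hc : (i ≤ 3 * k + 3 ∧ i ≠ 2 * k + 7) ∨ i = 2 * k + 7 ∨ (3 * k + 4 ≤ i ∧ i < 3 * k + 7) ∨
      (3 * k + 7 ≤ i ∧ i < 4 * k + 4) ∨ (4 * k + 4 ≤ i ∧ i < 5 * k + 5) := by omega
  rcases hc with h | h | h | h | h
  · exact (inB hk h.1 h.2).ge
  · rw [h]; exact in_v hk
  · exact in_R1 hk h.1 h.2
  · exact in_R2 hk h.1 h.2
  · exact in_R3 hk h.1 h.2

theorem minDeg_tD {k : ℕ} (hk : 9 ≤ k) : MinDeg k (tD k) := by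
  intro v
  rw [out_card, in_card]
  exact ⟨out_ge hk v.isLt, in_ge hk v.isLt⟩

end Pool.Agent.BKF
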